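import Pool.Agent.Y885.VM

set_option autoImplicit false

/-!
The von Mangoldt function at the values of linear forms is bounded by a power of the logarithm.
-/

namespace Pool.Agent.J4H77.MS

open Finset

lemma vm_log (B : ℕ) : ∃ N₀ : ℕ, ∀ N : ℕ, N₀ ≤ N → ∀ a h n : ℕ, a ≤ N ^ B → h ≤ N ^ B → n ≤ B * N →
    |ArithmeticFunction.vonMangoldt (a * n + h)| ≤ Real.log N ^ 2 := by
  obtain ⟨n1, h1⟩ := Pool.Agent.H373R2.T7.ev_L' ((B : ℝ) + 3)
  refine ⟨n1 + B + 3, fun N hN a h n ha hh hn => ?_⟩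
  rw [abs_of_nonneg ArithmeticFunction.vonMangoldt_nonneg]
  refine ArithmeticFunction.vonMangoldt_le_log.trans ?_
  have hL := h1 N (by omega)
  have hB0 : (0 : ℝ) ≤ B := Nat.cast_nonneg B
  have e1 : a * n + h ≤ N ^ (B + 3) := by
    calc a * n + h ≤ N ^ B * (B * N) + N ^ B := add_le_add (Nat.mul_le_mul ha hn) hh
      _ ≤ N ^ B * (N * N) + N ^ B * (N * N) := by
          apply add_le_add
          · exact Nat.mul_le_mul_left _ (Nat.mul_le_mul_right _ (by omega))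
          · exact Nat.le_mul_of_pos_right _ (Nat.mul_pos (by omega) (by omega))
      _ = N ^ B * (2 * (N * N)) := by ring
      _ ≤ N ^ B * (N * (N * N)) := Nat.mul_le_mul_left _ (Nat.mul_le_mul_right _ (by omega))
      _ = _ := by ring
  rcases Nat.eq_zero_or_pos (a * n + h) with h0 | h0
  · rw [h0]
    simp only [Nat.cast_zero, Real.log_zero]
    positivity
  · have e2 : Real.log ((a * n + h : ℕ) : ℝ) ≤ Real.log ((N ^ (B + 3) : ℕ) : ℝ) :=
      Real.log_le_log (by exact_mod_cast h0) (by exact_mod_cast e1)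
    refine e2.trans ?_
    rw [Nat.cast_pow, Real.log_pow, pow_two]
    push_cast
    exact mul_le_mul_of_nonneg_right hL (by linarith)

/-- products of values of the von Mangoldt function -/
lemma vm_prod (B s : ℕ) : ∃ N₀ : ℕ, ∀ N : ℕ, N₀ ≤ N → ∀ a h : Fin s → ℕ, (∀ i, a i ≤ N ^ B ∧ h i ≤ N ^ B) →
    ∀ n ≤ B * N, ∀ θ : ℂ, ‖θ‖ ≤ 1 →
    ‖θ * ∏ i, (ArithmeticFunction.vonMangoldt (a i * n + h i) : ℂ)‖ ≤ Real.log N ^ (2 * s) := by
  obtain ⟨N₀, h0⟩ := vm_log B
  refine ⟨N₀, fun N hN a h hah n hn θ hθ => ?_⟩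
  have e1 : ‖∏ i : Fin s, (ArithmeticFunction.vonMangoldt (a i * n + h i) : ℂ)‖ ≤ Real.log N ^ (2 * s) := by
    rw [norm_prod]
    calc ∏ i : Fin s, ‖(ArithmeticFunction.vonMangoldt (a i * n + h i) : ℂ)‖ ≤ ∏ _i : Fin s, Real.log N ^ 2 := by
          apply prod_le_prod (fun _ _ => norm_nonneg _)
          intro i _
          rw [Complex.norm_real, Real.norm_eq_abs]
          exact h0 N hN _ _ n (hah i).1 (hah i).2 hn
      _ = Real.log N ^ (2 * s) := by
          rw [prod_const, card_univ, Fintype.card_fin, ← pow_mul]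
  rw [norm_mul]
  calc ‖θ‖ * _ ≤ 1 * Real.log N ^ (2 * s) := mul_le_mul hθ e1 (norm_nonneg _) zero_le_one
    _ = _ := one_mul _

end Pool.Agent.J4H77.MS
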